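import Pool.Agent.H612.Collect

/-!
# Affine polynomial projection: the decision problem
-/

namespace Pool.Agent.Y604.AP

open Pool.Agent.NPC.H612

/-- Instances `(n, f, g)`: two integer polynomials `f`, `g` in `n` variables, given by their
coefficients and exponent vectors. -/
abbrev Inst : Type := ℕ × PolyData × PolyData

/-- `(n, f, g)` correctly describes two integer polynomials in `n` variables of total degree at
most `D` (no condition on the degree if `D = ⊤`). -/
def IsInst (D : ℕ∞) (I : Inst) : Prop :=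
  I.2.1.Valid I.1 ∧ I.2.2.Valid I.1 ∧
    (∀ t ∈ I.2.1, ((t.2.sum : ℕ) : ℕ∞) ≤ D) ∧ ∀ t ∈ I.2.2, ((t.2.sum : ℕ) : ℕ∞) ≤ D

/-- **Affine polynomial projection** for polynomials of degree at most `D`: there are a real
`n × n` matrix `A` and a vector `b` with `f(x) = g(Ax + b)` for all `x`. -/
def AffineProjection (D : ℕ∞) (I : Inst) : Prop :=
  IsInst D I ∧ ∃ (A : Matrix (Fin I.1) (Fin I.1) ℝ) (b : Fin I.1 → ℝ), ∀ x : Fin I.1 → ℝ,
    MvPolynomial.aeval x (I.2.1.toPoly I.1) =
      MvPolynomial.aeval (A.mulVec x + b) (I.2.2.toPoly I.1)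

end Pool.Agent.Y604.AP
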