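import Pool.Agent.Y604.AP.Red
import Pool.Agent.Y604.QF.SNPoly
import Pool.Agent.H612.CollectPoly

/-!
# Affine polynomial projection: hardness
-/

namespace Pool.Agent.NPC.Y604AP

open Pool.Agent.NPC Pool.Agent.NPC.ER Pool.Agent.NPC.H612 Pool.Agent.NPC.H78TSV
open Pool.Agent.NPC.Y604QF
open Pool.Agent.H78R3.TSV Pool.Agent.Y604.QF Pool.Agent.Y604.AP

section

variable {α : Type} [TEnc α]

theorem sign_eq (a b : ℤ) :
    (!(decide (a < 0) ^^ decide (b < 0))) = decide ((a < 0) = (b < 0)) := by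
  by_cases h1 : a < 0 <;> by_cases h2 : b < 0 <;> simp [h1, h2]

theorem poly_prodTerms {s t : α → QT} (hs : Poly s) (ht : Poly t) :
    Poly (fun a => prodTerms (s a) (t a)) := by
  have s1 := Poly.fst hs
  have t1 := Poly.fst ht
  refine Poly.map (F := fun a _ => (decide (((s a).1 < 0) = ((t a).1 < 0)),
    [(s a).2.1, (s a).2.2, (t a).2.1, (t a).2.2])) (Poly.filter
    (p := fun a r => decide (r < 16 * ((s a).1.natAbs * (t a).1.natAbs)))
    (Poly.const (List.range 1024)) ?_) ?_
  · exact Poly.decide_lt (Poly.snd Poly.id) ((Poly.mul (Poly.const 16)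
      (Poly.mul (Poly.natAbs s1) (Poly.natAbs t1))).comp (Poly.fst Poly.id))
  · refine Poly.comp (f := fun p : α × ℕ => p.1)
      (g := fun a => (decide (((s a).1 < 0) = ((t a).1 < 0)),
      [(s a).2.1, (s a).2.2, (t a).2.1, (t a).2.2])) (Poly.pair ?_ ?_) (Poly.fst Poly.id)
    · exact (Poly.not (Poly.xor (Poly.isNeg s1) (Poly.isNeg t1))).congr fun a => sign_eq _ _
    · exact Poly.cons (Poly.fst (Poly.snd hs)) (Poly.cons (Poly.snd (Poly.snd hs))
        (Poly.cons (Poly.fst (Poly.snd ht)) (Poly.cons (Poly.snd (Poly.snd ht)) (Poly.const []))))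

theorem poly_sqTerms {g : α → QC} (hg : Poly g) : Poly (fun a => sqTerms (g a)) := by
  have g1 := Poly.fst hg
  have g2 := Poly.fst (Poly.snd hg)
  have g3 := Poly.snd (Poly.snd hg)
  have h3 : Poly (fun a => [(g a).1, (g a).2.1, (g a).2.2]) :=
    Poly.cons g1 (Poly.cons g2 (Poly.cons g3 (Poly.const [])))
  refine Poly.flatMap (F := fun a s => [(g a).1, (g a).2.1, (g a).2.2].flatMap fun t =>
    prodTerms s t) h3 ?_
  refine Poly.flatMap (F := fun (p : α × QT) t => prodTerms p.2 t) (h3.comp (Poly.fst Poly.id)) ?_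
  exact poly_prodTerms (Poly.snd (Poly.fst Poly.id)) (Poly.snd Poly.id)

theorem poly_rawG {q : α → ℕ} {G : α → List QC} (hq : Poly q) (hG : Poly G) :
    Poly (fun a => rawG (q a) (G a)) := by
  refine Poly.cons (Poly.pair (Poly.const false) (Poly.cons hq (Poly.cons (Poly.const 0)
    (Poly.cons hq (Poly.cons (Poly.const 0) (Poly.const [])))))) ?_
  exact Poly.flatMap (F := fun _ g => sqTerms g) hG (poly_sqTerms (Poly.snd Poly.id))

theorem poly_mkAP {n q : α → ℕ} {G : α → List QC} (hn : UPoly n) (hq : Poly q) (hG : Poly G) :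
    Poly (fun a => mkAP (n a) (q a) (G a)) :=
  Poly.pair hn.toPoly (Poly.pair (poly_collect hn (Poly.const _))
    (poly_collect hn (poly_rawG hq hG)))

end

/-- Affine polynomial projection is `∃ℝ`-hard, for all bounds of the degree from `4` on. -/
theorem hard (D : ℕ∞) (hD : 4 ≤ D) : ERHard (lang (AffineProjection D)) :=
  ERHard.of_sys (poly_mkAP (upoly_rn Poly.id) (poly_rq Poly.id) (poly_rsys Poly.id))
    (sat_iff_ap hD)

end Pool.Agent.NPC.Y604AP
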