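import Pool.Agent.Y604.AP.Defs
import Pool.Agent.Y604.QF.Core

/-!
# Affine polynomial projection: the reduction
-/

namespace Pool.Agent.Y604.AP

open Pool.Agent.NPC Pool.Agent.NPC.ER Pool.Agent.NPC.H612 Pool.Agent.H78R3.TSV
open Pool.Agent.Y604.QF

/-- The terms of `-16` times the product of two terms. -/
def prodTerms (s t : QT) : List (Bool × List ℕ) :=
  ((List.range 1024).filter fun r => decide (r < 16 * (s.1.natAbs * t.1.natAbs))).map fun _ =>
    (decide ((s.1 < 0) = (t.1 < 0)), [s.2.1, s.2.2, t.2.1, t.2.2])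

/-- The terms of `-16` times the square of a constraint. -/
def sqTerms (g : QC) : List (Bool × List ℕ) :=
  [g.1, g.2.1, g.2.2].flatMap fun s => [g.1, g.2.1, g.2.2].flatMap fun t => prodTerms s t

/-- The quartic form of a system of quadratic forms. -/
def rawG (q : ℕ) (G : List QC) : List (Bool × List ℕ) :=
  (false, [q, 0, q, 0]) :: G.flatMap sqTerms

theorem length_filter_lt {c N : ℕ} (h : c ≤ N) :
    ((List.range N).filter fun r => decide (r < c)).length = c := by
  have h1 : (List.range N).filter (fun r => decide (r < c)) = List.range c := by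
    obtain ⟨k, rfl⟩ := Nat.exists_eq_add_of_le h
    rw [List.range_add, List.filter_append]
    have e1 : (List.range c).filter (fun r => decide (r < c)) = List.range c := by
      rw [List.filter_eq_self]
      intro a ha
      simpa using ha
    have e2 : (List.map (fun x => c + x) (List.range k)).filter (fun r => decide (r < c)) = [] := by
      rw [List.filter_eq_nil_iff]
      intro a ha
      obtain ⟨b, _, rfl⟩ := List.mem_map.1 ha
      simp
    rw [e1, e2, List.append_nil]
  rw [h1, List.length_range]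

/-- The value of a quadratic term. -/
def qev (y : ℕ → ℝ) (t : QT) : ℝ := (t.1 : ℝ) * (y t.2.1 * y t.2.2)

theorem tev_eq (y : ℕ → ℝ) (t : QT) : tev y y t = 2 * qev y t := by
  unfold tev bev qev
  ring

theorem rawEval_append (y : ℕ → ℝ) (a b : List (Bool × List ℕ)) :
    rawEval y (a ++ b) = rawEval y a + rawEval y b := by
  unfold rawEval
  rw [List.map_append, List.sum_append]

theorem rawEval_flatMap {γ : Type} (y : ℕ → ℝ) (l : List γ) (F : γ → List (Bool × List ℕ)) :
    rawEval y (l.flatMap F) = (l.map fun c => rawEval y (F c)).sum := by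
  induction l with
  | nil => simp [rawEval]
  | cons a l ih => rw [List.flatMap_cons, rawEval_append, ih, List.map_cons, List.sum_cons]

theorem sign_key (a b : ℤ) :
    (sgn (decide ((a < 0) = (b < 0))) : ℝ) * ((a.natAbs * b.natAbs : ℕ) : ℝ) = - (a * b) := by
  have ha : ((a.natAbs : ℕ) : ℝ) = |(a : ℝ)| := by rw [Nat.cast_natAbs]; push_cast; rfl
  have hb : ((b.natAbs : ℕ) : ℝ) = |(b : ℝ)| := by rw [Nat.cast_natAbs]; push_cast; rfl
  rw [Nat.cast_mul, ha, hb]
  by_cases h1 : a < 0 <;> by_cases h2 : b < 0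
  · have h1' : (a : ℝ) < 0 := by exact_mod_cast h1
    have h2' : (b : ℝ) < 0 := by exact_mod_cast h2
    rw [abs_of_neg h1', abs_of_neg h2']
    simp [h1, h2, sgn]
  · have h1' : (a : ℝ) < 0 := by exact_mod_cast h1
    have h2' : (0 : ℝ) ≤ b := by exact_mod_cast not_lt.1 h2
    rw [abs_of_neg h1', abs_of_nonneg h2']
    simp [h1, h2, sgn]
  · have h1' : (0 : ℝ) ≤ a := by exact_mod_cast not_lt.1 h1
    have h2' : (b : ℝ) < 0 := by exact_mod_cast h2
    rw [abs_of_nonneg h1', abs_of_neg h2']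
    simp [h1, h2, sgn]
  · have h1' : (0 : ℝ) ≤ a := by exact_mod_cast not_lt.1 h1
    have h2' : (0 : ℝ) ≤ b := by exact_mod_cast not_lt.1 h2
    rw [abs_of_nonneg h1', abs_of_nonneg h2']
    simp [h1, h2, sgn]

theorem rawEval_prodTerms (y : ℕ → ℝ) {s t : QT} (hs : s.1.natAbs ≤ 8) (ht : t.1.natAbs ≤ 8) :
    rawEval y (prodTerms s t) = - 16 * (qev y s * qev y t) := by
  unfold rawEval prodTerms
  rw [List.map_map]
  have e : ((fun p : Bool × List ℕ => (sgn p.1 : ℝ) * (p.2.map y).prod) ∘ fun _ : ℕ =>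
      (decide ((s.1 < 0) = (t.1 < 0)), [s.2.1, s.2.2, t.2.1, t.2.2])) =
      fun _ : ℕ => (sgn (decide ((s.1 < 0) = (t.1 < 0))) : ℝ) *
        (y s.2.1 * (y s.2.2 * (y t.2.1 * y t.2.2))) := by
    funext r
    simp
  rw [e, List.map_const', List.sum_replicate, nsmul_eq_mul, length_filter_lt]
  · have h := sign_key s.1 t.1
    rw [Nat.cast_mul] at h ⊢
    unfold qev
    have h2 : ((16 : ℕ) : ℝ) * ((s.1.natAbs * t.1.natAbs : ℕ) : ℝ) *
        ((sgn (decide ((s.1 < 0) = (t.1 < 0))) : ℝ) * (y s.2.1 * (y s.2.2 * (y t.2.1 * y t.2.2)))) =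
        16 * ((sgn (decide ((s.1 < 0) = (t.1 < 0))) : ℝ) * ((s.1.natAbs * t.1.natAbs : ℕ) : ℝ)) *
          (y s.2.1 * (y s.2.2 * (y t.2.1 * y t.2.2))) := by
      push_cast
      ring
    rw [h2, sign_key]
    ring
  · have := Nat.mul_le_mul hs ht
    omega

theorem rawEval_sqTerms (y : ℕ → ℝ) {n : ℕ} {g : QC} (hg : GOk n g) :
    rawEval y (sqTerms g) = - 4 * gev y y g ^ 2 := by
  obtain ⟨h1, h2, h3⟩ := hg
  unfold sqTerms
  simp only [rawEval_flatMap, List.map_cons, List.map_nil, List.sum_cons, List.sum_nil]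
  rw [rawEval_prodTerms y h1.1 h1.1, rawEval_prodTerms y h1.1 h2.1, rawEval_prodTerms y h1.1 h3.1,
    rawEval_prodTerms y h2.1 h1.1, rawEval_prodTerms y h2.1 h2.1, rawEval_prodTerms y h2.1 h3.1,
    rawEval_prodTerms y h3.1 h1.1, rawEval_prodTerms y h3.1 h2.1, rawEval_prodTerms y h3.1 h3.1]
  unfold gev
  rw [tev_eq, tev_eq, tev_eq]
  ring

/-- The value of the quartic form. -/
theorem rawEval_rawG (y : ℕ → ℝ) {n q : ℕ} {G : List QC} (hG : ∀ g ∈ G, GOk n g) :
    4 * rawEval y (rawG q G) = bev y y (q, 0) ^ 2 -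
      16 * (G.map fun g => gev y y g ^ 2).sum := by
  have e : rawG q G = [(false, [q, 0, q, 0])] ++ G.flatMap sqTerms := rfl
  rw [e, rawEval_append, rawEval_flatMap]
  have h1 : (G.map fun c => rawEval y (sqTerms c)) = G.map fun g => - 4 * gev y y g ^ 2 :=
    List.map_congr_left fun g hg => rawEval_sqTerms y (hG g hg)
  have h2 : rawEval y [(false, [q, 0, q, 0])] = (y q * y 0) ^ 2 := by
    simp [rawEval, sgn]
    ring
  rw [h1, h2, List.sum_map_mul_left]
  unfold bev
  ring

theorem rawG_lt {n q : ℕ} {G : List QC} (hG : ∀ g ∈ G, GOk n g) (hq : q < n) :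
    ∀ p ∈ rawG q G, ∀ i ∈ p.2, i < n := by
  intro p hp i hi
  rcases List.mem_cons.1 hp with rfl | hp
  · simp only [List.mem_cons, List.not_mem_nil, or_false] at hi
    omega
  · obtain ⟨g, hg, hp⟩ := List.mem_flatMap.1 hp
    obtain ⟨⟨-, a1, a2⟩, ⟨-, b1, b2⟩, ⟨-, c1, c2⟩⟩ := hG g hg
    have key : ∀ s ∈ [g.1, g.2.1, g.2.2], s.2.1 < n ∧ s.2.2 < n := by
      intro s hs
      simp only [List.mem_cons, List.not_mem_nil, or_false] at hs
      rcases hs with rfl | rfl | rfl
      exacts [⟨a1, a2⟩, ⟨b1, b2⟩, ⟨c1, c2⟩]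
    unfold sqTerms at hp
    obtain ⟨s, hs, hp⟩ := List.mem_flatMap.1 hp
    obtain ⟨t, ht, hp⟩ := List.mem_flatMap.1 hp
    unfold prodTerms at hp
    obtain ⟨r, -, rfl⟩ := List.mem_map.1 hp
    simp only [List.mem_cons, List.not_mem_nil, or_false] at hi
    have k1 := key s hs
    have k2 := key t ht
    rcases hi with rfl | rfl | rfl | rfl
    exacts [k1.1, k1.2, k2.1, k2.2]

theorem rawG_length {q : ℕ} {G : List QC} : ∀ p ∈ rawG q G, p.2.length = 4 := by
  intro p hp
  rcases List.mem_cons.1 hp with rfl | hp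
  · rfl
  · obtain ⟨g, hg, hp⟩ := List.mem_flatMap.1 hp
    unfold sqTerms at hp
    obtain ⟨s, hs, hp⟩ := List.mem_flatMap.1 hp
    obtain ⟨t, ht, hp⟩ := List.mem_flatMap.1 hp
    unfold prodTerms at hp
    obtain ⟨r, -, rfl⟩ := List.mem_map.1 hp
    rfl

theorem rawEval_smul {raw : List (Bool × List ℕ)} {d : ℕ} (h : ∀ p ∈ raw, p.2.length = d)
    (c : ℝ) (y : ℕ → ℝ) : rawEval (fun i => c * y i) raw = c ^ d * rawEval y raw := by
  unfold rawEval
  rw [← List.sum_map_mul_left]
  congr 1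
  apply List.map_congr_left
  intro p hp
  have e : (p.2.map fun i => c * y i).prod = c ^ p.2.length * (p.2.map y).prod := by
    induction p.2 with
    | nil => simp
    | cons a l ih =>
      rw [List.map_cons, List.prod_cons, ih, List.map_cons, List.prod_cons, List.length_cons,
        pow_succ]
      ring
  rw [e, h p hp]
  ring

/-- The instance of a system of quadratic forms. -/
def mkAP (n q : ℕ) (G : List QC) : Inst :=
  (n, collect n [(false, [0, 0, 0, 0])], collect n (rawG q G))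

/-- The projection property. -/
def Proj (n : ℕ) (f g : PolyData) : Prop :=
  ∃ (A : Matrix (Fin n) (Fin n) ℝ) (b : Fin n → ℝ), ∀ x : Fin n → ℝ,
    MvPolynomial.aeval x (f.toPoly n) = MvPolynomial.aeval (A.mulVec x + b) (g.toPoly n)

theorem affineProjection_iff {D : ℕ∞} {n : ℕ} {f g : PolyData} :
    AffineProjection D (n, f, g) ↔ IsInst D (n, f, g) ∧ Proj n f g := Iff.rfl

theorem pw_lt {n : ℕ} (h0 : 0 < n) : ∀ p ∈ [((false, [0, 0, 0, 0]) : Bool × List ℕ)],
    ∀ i ∈ p.2, i < n := by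
  intro p hp i hi
  rw [List.mem_singleton] at hp
  subst hp
  simp only [List.mem_cons, List.not_mem_nil, or_false, or_self] at hi
  omega

theorem pw_length : ∀ p ∈ [((false, [0, 0, 0, 0]) : Bool × List ℕ)], p.2.length = 4 := by
  intro p hp
  rw [List.mem_singleton] at hp
  subst hp
  rfl

theorem isInst_mkAP {D : ℕ∞} (hD : 4 ≤ D) {n q : ℕ} {G : List QC} (hG : ∀ g ∈ G, GOk n g)
    (hq : q < n) : IsInst D (mkAP n q G) := by
  refine ⟨collect_valid _ _, collect_valid _ _, fun t ht => ?_, fun t ht => ?_⟩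
  · rw [collect_deg _ (pw_lt (by omega)) pw_length t ht]
    exact hD
  · rw [collect_deg _ (rawG_lt hG hq) rawG_length t ht]
    exact hD

/-- The projection property for the fourth power of a variable. -/
theorem proj_iff {n : ℕ} (h0 : 0 < n) {raw : List (Bool × List ℕ)}
    (hlt : ∀ p ∈ raw, ∀ i ∈ p.2, i < n) (hlen : ∀ p ∈ raw, p.2.length = 4) :
    Proj n (collect n [(false, [0, 0, 0, 0])]) (collect n raw) ↔
      ∃ y : ℕ → ℝ, (∀ i, n ≤ i → y i = 0) ∧ 0 < rawEval y raw := by
  have ef : ∀ x : Fin n → ℝ, MvPolynomial.aeval x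
      ((collect n [(false, [0, 0, 0, 0])]).toPoly n) = x ⟨0, h0⟩ ^ 4 := by
    intro x
    rw [aeval_collect _ (pw_lt h0)]
    have : xt x 0 = x ⟨0, h0⟩ := xt_fin x ⟨0, h0⟩
    simp only [rawEval, sgn, List.map_cons, List.map_nil, List.prod_cons, List.prod_nil,
      List.sum_cons, List.sum_nil, this]
    simp
    ring
  have eg : ∀ x : Fin n → ℝ, MvPolynomial.aeval x ((collect n raw).toPoly n) =
      rawEval (xt x) raw := fun x => aeval_collect _ hlt x
  unfold Proj
  constructor
  · rintro ⟨A, b, h⟩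
    have h1 := h (fun _ => 1)
    rw [ef, eg, one_pow] at h1
    refine ⟨xt (A.mulVec (fun _ => 1) + b), fun i hi => ?_, ?_⟩
    · unfold xt
      rw [dif_neg (not_lt.2 hi)]
    · rw [← h1]
      exact one_pos
  · rintro ⟨y, hy0, hy⟩
    obtain ⟨c, hc, hc4⟩ : ∃ c : ℝ, 0 < c ∧ c ^ 4 = rawEval y raw := by
      refine ⟨Real.sqrt (Real.sqrt (rawEval y raw)),
        Real.sqrt_pos.2 (Real.sqrt_pos.2 hy), ?_⟩
      have e1 := Real.sq_sqrt hy.le
      have e2 := Real.sq_sqrt (Real.sqrt_nonneg (rawEval y raw))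
      calc Real.sqrt (Real.sqrt (rawEval y raw)) ^ 4 =
          (Real.sqrt (Real.sqrt (rawEval y raw)) ^ 2) ^ 2 := by ring
        _ = rawEval y raw := by rw [e2, e1]
    refine ⟨fun i j => if j = ⟨0, h0⟩ then y i / c else 0, 0, fun x => ?_⟩
    have e1 : (Matrix.mulVec (fun i j : Fin n => if j = ⟨0, h0⟩ then y i / c else 0) x + 0) =
        fun i : Fin n => (x ⟨0, h0⟩ / c) * y i := by
      funext i
      rw [add_zero]
      unfold Matrix.mulVec dotProduct
      simp only [ite_mul, zero_mul]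
      rw [Finset.sum_ite_eq' Finset.univ (⟨0, h0⟩ : Fin n)]
      simp only [Finset.mem_univ, if_true]
      rw [div_mul_eq_mul_div, div_mul_eq_mul_div, mul_comm]
    have e2 : xt (fun i : Fin n => (x ⟨0, h0⟩ / c) * y i) = fun i => (x ⟨0, h0⟩ / c) * y i := by
      funext i
      unfold xt
      by_cases hi : i < n
      · rw [dif_pos hi]
      · rw [dif_neg hi, hy0 i (not_lt.1 hi), mul_zero]
    rw [ef, eg, e1, e2, rawEval_smul hlen, ← hc4, div_pow]
    field_simp

/-- The form has a positive value if and only if the instance is positive. -/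
theorem mkAP_iff {D : ℕ∞} (hD : 4 ≤ D) {n q : ℕ} {G : List QC} (hG : ∀ g ∈ G, GOk n g)
    (hq : q < n) : AffineProjection D (mkAP n q G) ↔ ∃ y : ℕ → ℝ, (∀ i, n ≤ i → y i = 0) ∧
      0 < rawEval y (rawG q G) := by
  have h := proj_iff (by omega : 0 < n) (rawG_lt hG hq) rawG_length
  unfold mkAP
  rw [affineProjection_iff, h]
  exact ⟨fun h => h.2, fun h => ⟨isInst_mkAP hD hG hq, h⟩⟩

/-- **Correctness of the reduction.** -/
theorem sat_iff_ap {D : ℕ∞} (hD : 4 ≤ D) (S : List ER.Con) :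
    Sat S ↔ AffineProjection D (mkAP (rn S) (rq S) (rsys S)) := by
  rw [mkAP_iff hD (rsys_ok S) (rq_lt_rn S)]
  constructor
  · intro h
    obtain ⟨x, h1, h2, h3⟩ := robust_of_sat h
    refine ⟨x, h2, ?_⟩
    have h4 := rawEval_rawG x (q := rq S) (rsys_ok S)
    have h5 : ((rsys S).map fun g => gev x x g ^ 2).sum = 0 := by
      apply List.sum_eq_zero
      intro r hr
      obtain ⟨g, hg, rfl⟩ := List.mem_map.1 hr
      rw [h3 g hg]
      norm_num
    rw [h5] at h4
    have h6 : 0 < bev x x (rq S, 0) ^ 2 := by positivity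
    linarith
  · rintro ⟨y, hy0, hy⟩
    have h4 := rawEval_rawG y (q := rq S) (rsys_ok S)
    have h7 : ∀ g ∈ rsys S, gev y y g ^ 2 ≤ ((rsys S).map fun g => gev y y g ^ 2).sum := by
      intro g hg
      apply List.single_le_sum
      · intro r hr
        obtain ⟨g', _, rfl⟩ := List.mem_map.1 hr
        positivity
      · exact List.mem_map.2 ⟨g, hg, rfl⟩
    have hs0 : 0 ≤ ((rsys S).map fun g => gev y y g ^ 2).sum := by
      apply List.sum_nonneg
      intro r hr
      obtain ⟨g', _, rfl⟩ := List.mem_map.1 hr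
      positivity
    refine sat_of_robust S y ?_ fun g hg => ?_
    · intro h
      rw [h] at h4
      linarith
    · have h8 := h7 g hg
      apply abs_le_of_sq_le_sq _ (by positivity)
      rw [mul_pow, sq_abs]
      linarith

end Pool.Agent.Y604.AP
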